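import Mathlib
import Pool.Agent.H13.IntDist

namespace Pool.Agent.Results.MP_6ac4e5_co.WithinOne
open Finset

/-- pairs of distinct members with equal intersection size are the same unordered pair -/
def IntDistinct {n : ℕ} (F : Finset (Finset (Fin n))) : Prop :=
  ∀ A ∈ F, ∀ B ∈ F, ∀ C ∈ F, ∀ D ∈ F, A ≠ B → C ≠ D → (A ∩ B).card = (C ∩ D).card →
    (A = C ∧ B = D) ∨ (A = D ∧ B = C)

noncomputable def f (n : ℕ) : ℕ :=
  sSup {m | ∃ F : Finset (Finset (Fin n)), IntDistinct F ∧ F.card = m}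

lemma bdd (n : ℕ) :
    BddAbove {m | ∃ F : Finset (Finset (Fin n)), IntDistinct F ∧ F.card = m} :=
  ⟨Fintype.card (Finset (Fin n)), by rintro m ⟨F, -, rfl⟩; exact card_le_univ F⟩

lemma attained (n : ℕ) : ∃ G : Finset (Finset (Fin n)), H13.IntDist.UD G ∧ G.card = f n := by
  obtain ⟨F, hF, e⟩ := Nat.sSup_mem
    (s := {m | ∃ F : Finset (Finset (Fin n)), IntDistinct F ∧ F.card = m})
    ⟨0, ∅, by intro A hA; simp at hA, rfl⟩ (bdd n)
  refine ⟨F.image compl, ?_, by rw [card_image_of_injective _ compl_injective]; exact e⟩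
  intro A hA B hB C hC D hD h1 h2 h3
  obtain ⟨A, hA', rfl⟩ := mem_image.1 hA
  obtain ⟨B, hB', rfl⟩ := mem_image.1 hB
  obtain ⟨C, hC', rfl⟩ := mem_image.1 hC
  obtain ⟨D, hD', rfl⟩ := mem_image.1 hD
  rw [← Finset.compl_inter, ← Finset.compl_inter] at h3
  have a := card_add_card_compl (A ∩ B)
  have b := card_add_card_compl (C ∩ D)
  rcases hF A hA' B hB' C hC' D hD' (fun e => h1 (by rw [e])) (fun e => h2 (by rw [e])) (by omega) with
    ⟨rfl, rfl⟩ | ⟨rfl, rfl⟩ <;> simp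

def b (m : ℕ) : ℕ → ℕ
  | 0 => 0
  | i + 1 => b m i + (m - i)

lemma b_mono (m : ℕ) : Monotone (b m) := monotone_nat_of_le_succ fun i => by simp [b]

lemma b_val (m i : ℕ) (h : i ≤ m) : b m i + i.choose 2 = m * i := by
  induction i with
  | zero => simp [b]
  | succ i ih =>
    have := ih (by omega)
    rw [b, Nat.choose_succ_succ', Nat.choose_one_right, Nat.mul_succ]
    simp only [Nat.reduceAdd]
    omega

def A (n m i : ℕ) : Finset (Fin n) := univ.filter fun x => i < x.1 + 3 ∧ x.1 + 3 ≤ b m i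

lemma card_inter {n m i j : ℕ} (hn : b m (m - 1) ≤ n + 2) (h1 : 1 ≤ i) (h2 : i < j) (h3 : j ≤ m) :
    (A n m i ∩ A n m j).card = b m i - j := by
  have l1 := b_mono m h2.le
  have l2 : b m i ≤ b m (m - 1) := b_mono m (by omega)
  rw [← card_image_of_injective _ (f := fun x : Fin n => x.1 + 3)
    (fun x y e => Fin.ext (by simpa using e)), ← Nat.card_Ioc]
  congr 1
  ext y
  simp only [A, mem_image, mem_inter, mem_filter, mem_univ, true_and, mem_Ioc]
  constructor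
  · rintro ⟨x, hx, rfl⟩; omega
  · intro hy
    exact ⟨⟨y - 3, by omega⟩, by simp only; omega, by simp only; omega⟩

lemma val_inj {m i j i' j' : ℕ} (h1 : 1 ≤ i) (h2 : i < j) (h3 : j ≤ m) (h1' : 1 ≤ i')
    (h2' : i' < j') (h3' : j' ≤ m) (e : b m i - j = b m i' - j') : i = i' ∧ j = j' := by
  have m1 : m ≤ b m i := by simpa [b] using b_mono m h1
  have m2 : m ≤ b m i' := by simpa [b] using b_mono m h1'
  rcases lt_trichotomy i i' with h | h | h
  · have := b_mono m (show i + 1 ≤ i' from h)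
    simp only [b] at this; omega
  · subst h; omega
  · have := b_mono m (show i' + 1 ≤ i from h)
    simp only [b] at this; omega

lemma pair_inj {n m i j i' j' : ℕ} (hn : b m (m - 1) ≤ n + 2) (hi : i ∈ Icc 1 m) (hj : j ∈ Icc 1 m)
    (hi' : i' ∈ Icc 1 m) (hj' : j' ∈ Icc 1 m) (h : i ≠ j) (h' : i' ≠ j')
    (e : (A n m i ∩ A n m j).card = (A n m i' ∩ A n m j').card) :
    (i = i' ∧ j = j') ∨ (i = j' ∧ j = i') := by
  simp only [mem_Icc] at hi hj hi' hj'
  rcases lt_or_gt_of_ne h with l | l <;> rcases lt_or_gt_of_ne h' with l' | l'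
  · rw [card_inter hn hi.1 l hj.2, card_inter hn hi'.1 l' hj'.2] at e
    exact Or.inl (val_inj hi.1 l hj.2 hi'.1 l' hj'.2 e)
  · rw [inter_comm (A n m i'), card_inter hn hi.1 l hj.2, card_inter hn hj'.1 l' hi'.2] at e
    exact Or.inr (val_inj hi.1 l hj.2 hj'.1 l' hi'.2 e)
  · rw [inter_comm (A n m i), card_inter hn hj.1 l hi.2, card_inter hn hi'.1 l' hj'.2] at e
    exact Or.inr (val_inj hj.1 l hi.2 hi'.1 l' hj'.2 e).symm
  · rw [inter_comm (A n m i), inter_comm (A n m i'), card_inter hn hj.1 l hi.2,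
      card_inter hn hj'.1 l' hi'.2] at e
    exact Or.inl (val_inj hj.1 l hi.2 hj'.1 l' hi'.2 e).symm

lemma lower {n m : ℕ} (hm : 3 ≤ m) (hn : m.choose 2 + m ≤ n + 3) : m ≤ f n := by
  have hb : b m (m - 1) ≤ n + 2 := by
    obtain ⟨k, rfl⟩ : ∃ k, m = k + 1 := ⟨m - 1, by omega⟩
    have v := b_val (k + 1) (k + 1) le_rfl
    have w := Nat.choose_two_right (k + 1)
    have z : (k + 1) * k = 2 * (k + 1).choose 2 := by
      rw [w]; simp only [Nat.add_sub_cancel]
      have := Nat.even_mul_succ_self k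
      rw [mul_comm] at this
      exact (Nat.two_mul_div_two_of_even this).symm
    simp only [b, Nat.add_sub_cancel, Nat.add_sub_cancel_left, Nat.mul_succ] at *
    omega
  have inj : Set.InjOn (A n m) (Icc 1 m : Finset ℕ) := by
    intro i hi j hj e
    by_contra hne
    have hi' := mem_Icc.1 (mem_coe.1 hi)
    have hj' := mem_Icc.1 (mem_coe.1 hj)
    obtain ⟨k, hk, k1, k2⟩ : ∃ k ∈ Icc 1 m, i ≠ k ∧ j ≠ k := by
      by_cases a : i ≠ 1 ∧ j ≠ 1
      · exact ⟨1, by simp; omega, a⟩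
      by_cases a' : i ≠ 2 ∧ j ≠ 2
      · exact ⟨2, by simp; omega, a'⟩
      exact ⟨3, by simp; omega, by omega⟩
    have := pair_inj hb hi hk hj hk k1 k2 (by rw [e])
    omega
  apply le_csSup (bdd n)
  refine ⟨(Icc 1 m).image (A n m), ?_, by rw [card_image_of_injOn inj]; simp⟩
  intro P hP Q hQ R hR S hS h1 h2 h3
  obtain ⟨i, hi, rfl⟩ := mem_image.1 hP
  obtain ⟨j, hj, rfl⟩ := mem_image.1 hQ
  obtain ⟨k, hk, rfl⟩ := mem_image.1 hR
  obtain ⟨l, hl, rfl⟩ := mem_image.1 hS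
  rcases pair_inj hb hi hj hk hl (fun e => h1 (by rw [e])) (fun e => h2 (by rw [e])) h3 with
    ⟨rfl, rfl⟩ | ⟨rfl, rfl⟩ <;> simp

theorem result (n : ℕ) :
    (∀ m, 3 ≤ m → m.choose 2 + m ≤ n + 3 → m ≤ f n) ∧
    (f n).choose 2 ≤ n ∧
    (4 ≤ f n → (f n).choose 2 + 1 ≤ n) ∧
    (6 ≤ f n → (f n).choose 2 + 2 ≤ n) ∧
    (∀ M, 4 ≤ M → M.choose 2 ≤ n → n < (M + 1).choose 2 → f n = M - 1 ∨ f n = M) := by
  obtain ⟨G, hG, e⟩ := attained n
  have n0 := H13.IntDist.nec0 hG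
  have n1 := H13.IntDist.nec1 hG
  have n2 := H13.IntDist.nec2 hG
  rw [e] at n0 n1 n2
  refine ⟨fun m => lower, n0, n1, n2, fun M h4 h1 h2 => ?_⟩
  have up : f n ≤ M := by
    by_contra hc
    have := Nat.choose_le_choose 2 (show M + 1 ≤ f n by omega)
    omega
  obtain ⟨k, rfl⟩ : ∃ k, M = k + 1 := ⟨M - 1, by omega⟩
  rw [Nat.choose_succ_succ', Nat.choose_one_right] at h1
  simp only [Nat.reduceAdd] at h1
  have := lower (n := n) (m := k) (by omega) (by omega)
  omega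

end Pool.Agent.Results.MP_6ac4e5_co.WithinOne
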